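import Pool.Agent.Helper80.SI.StN

set_option autoImplicit false

/-!
# Module N4 of project SI: Cinf preserves kernel vectors
-/

namespace Pool.Agent.Helper92.SI

open Pool.Agent.Helper99.SI Pool.Agent.Helper80.SI Filter Topology

lemma sum_to {ι : Type} (f : ι →₀ ℂ) (g : ι → ℂ → ℂ) (h0 : ∀ i, g i 0 = 0)
    (T : Finset ι) (hT : ∀ i ∉ T, g i (f i) = 0) : f.sum g = ∑ i ∈ T, g i (f i) := by
  classical
  rw [Finsupp.sum_of_support_subset f (Finset.subset_union_left (s₂ := T)) g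
    (fun i _ => h0 i)]
  symm
  refine Finset.sum_subset Finset.subset_union_right ?_
  intro i _ hi
  exact hT i hi

section

variable {n : ℕ} {L : Type} [Ring L] [Algebra ℂ L] [StarRing L]

omit [Ring L] [Algebra ℂ L] [StarRing L] in
lemma Cc_len (m : MData n L) (t : ℝ) (i' i : Idx n m.r) (h : m.Cc t i' i ≠ 0) :
    ilen i' ≤ ilen i := by
  rcases i' with (ν | ν) | a
  · simp only [MData.Cc, Finsupp.single_apply] at h
    split_ifs at h with h1
    · rw [← h1]
      exact le_rfl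
    · exact absurd rfl h
  · simp only [MData.Cc, Finsupp.single_apply] at h
    split_ifs at h with h1
    · rw [← h1]
      exact le_rfl
    · exact absurd rfl h
  · exact Nat.zero_le _

omit [Ring L] [Algebra ℂ L] [StarRing L] in
lemma Fc_ne (m : MData n L) (t : ℝ) (i' i : Idx n m.r) (h : m.Fc t i' i ≠ 0) :
    ∃ j, m.F j i' i ≠ 0 := by
  by_contra h1
  push Not at h1
  apply h
  rw [MData.Fc, Finsupp.finsetSum_apply]
  refine Finset.sum_eq_zero fun j _ => ?_
  rw [Finsupp.smul_apply, h1 j, smul_zero]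

end

theorem hN4 : StN4 := by
  classical
  intro n L _ _ _ _ _ D X0 m s t z hm ht hz i
  obtain ⟨c, hc⟩ := hm.band
  obtain ⟨T, hT⟩ : ∃ T : Finset (Idx n m.r), ∀ i', i' ∈ T ↔ ilen i' ≤ ilen i + c := by
    refine ⟨(fin_ilen (n := n) (r := m.r) (ilen i + c)).toFinset, fun i' => ?_⟩
    rw [Set.Finite.mem_toFinset]
    rfl
  have hFl : ∀ i1 i2 : Idx n m.r, m.Fc t i2 i1 ≠ 0 → ilen i2 ≤ ilen i1 + c := by
    intro i1 i2 h
    obtain ⟨j, hj⟩ := Fc_ne m t i2 i1 h
    exact (hc j i2 i1 hj).2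
  -- the commutation relation in coordinates
  have hcomm : ∀ i2 : Idx n m.r,
      ∑ i1 ∈ T, star (m.Fc t i2 i1) * m.Cc t i1 i = ∑ i1 ∈ T, m.Cc t i2 i1 * m.Fc t i1 i := by
    intro i2
    have h1 := hm.Ccomm t ht (Finsupp.single i2 1)
    have h2 : m.Fl t (Finsupp.single i2 1) = m.Fc t i2 := by
      rw [MData.Fl, Finsupp.linearCombination_single, one_smul]
    have h3 : m.Cl t (Finsupp.single i2 1) = m.Cc t i2 := by
      rw [MData.Cl, Finsupp.sum_single_index]
      · rw [star_one, one_smul]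
      · rw [star_zero, zero_smul]
    rw [h2, h3] at h1
    have h4 := congrArg (fun f : Idx n m.r →₀ ℂ => f i) h1
    simp only [MData.Cl, MData.Fl, Finsupp.linearCombination_apply, Finsupp.sum_apply,
      Finsupp.smul_apply, smul_eq_mul] at h4
    rw [sum_to (m.Fc t i2) (fun i1 c => star c * m.Cc t i1 i) (by simp) T,
      sum_to (m.Cc t i2) (fun i1 c => c * m.Fc t i1 i) (by simp) T] at h4
    · exact h4
    · intro i1 hi1
      by_contra h5
      apply hi1
      rw [hT]
      exact hFl i i1 (right_ne_zero_of_mul h5)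
    · intro i1 hi1
      by_contra h5
      apply hi1
      rw [hT]
      exact (Cc_len m t i1 i (right_ne_zero_of_mul h5)).trans (Nat.le_add_right _ _)
  -- the values of Cinf as finite sums
  have hCinf : ∀ i1 ∈ T, Cinf m t z i1 = ∑ i2 ∈ T, star (z i2) * m.Cc t i2 i1 := by
    intro i1 hi1
    rw [Cinf]
    refine finsum_eq_sum_of_support_subset _ ?_
    intro i2 hi2
    rw [Finset.mem_coe, hT]
    exact (Cc_len m t i2 i1 (right_ne_zero_of_mul hi2)).trans ((hT i1).1 hi1)
  have hi : i ∈ T := (hT i).2 (Nat.le_add_right _ _)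
  -- the kernel equation
  have hker : ∀ i1 : Idx n m.r, ilen i1 ≤ ilen i →
      z i1 = s * ∑ i2 ∈ T, m.Fc t i2 i1 * z i2 := by
    intro i1 hi1
    conv_lhs => rw [hz i1]
    congr 1
    refine finsum_eq_sum_of_support_subset _ ?_
    intro i2 hi2
    rw [Finset.mem_coe, hT]
    have := hFl i1 i2 (left_ne_zero_of_mul hi2)
    omega
  have hR : ∑ᶠ i' : Idx n m.r, m.Fc t i' i * Cinf m t z i' =
      ∑ i1 ∈ T, m.Fc t i1 i * Cinf m t z i1 := by
    refine finsum_eq_sum_of_support_subset _ ?_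
    intro i2 hi2
    rw [Finset.mem_coe, hT]
    exact hFl i i2 (left_ne_zero_of_mul hi2)
  rw [hR, hCinf i hi]
  have hL : ∑ i2 ∈ T, star (z i2) * m.Cc t i2 i =
      ∑ i1 ∈ T, star ((s : ℂ) * ∑ i2 ∈ T, m.Fc t i2 i1 * z i2) * m.Cc t i1 i := by
    refine Finset.sum_congr rfl fun i1 _ => ?_
    by_cases h1 : m.Cc t i1 i = 0
    · rw [h1, mul_zero, mul_zero]
    · rw [← hker i1 (Cc_len m t i1 i h1)]
  rw [hL]
  have hs : star (s : ℂ) = (s : ℂ) := Complex.conj_ofReal s
  calc ∑ i1 ∈ T, star ((s : ℂ) * ∑ i2 ∈ T, m.Fc t i2 i1 * z i2) * m.Cc t i1 i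
      = s * ∑ i2 ∈ T, star (z i2) * ∑ i1 ∈ T, star (m.Fc t i2 i1) * m.Cc t i1 i := by
        simp only [star_mul, star_sum, hs, Finset.mul_sum, Finset.sum_mul]
        rw [Finset.sum_comm]
        refine Finset.sum_congr rfl fun i2 _ => Finset.sum_congr rfl fun i1 _ => ?_
        ring
    _ = s * ∑ i2 ∈ T, star (z i2) * ∑ i1 ∈ T, m.Cc t i2 i1 * m.Fc t i1 i := by
        congr 1
        refine Finset.sum_congr rfl fun i2 _ => ?_
        rw [hcomm i2]
    _ = s * ∑ i1 ∈ T, m.Fc t i1 i * Cinf m t z i1 := by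
        congr 1
        simp only [Finset.mul_sum]
        rw [Finset.sum_comm]
        refine Finset.sum_congr rfl fun i1 hi1 => ?_
        rw [hCinf i1 hi1, Finset.mul_sum]
        refine Finset.sum_congr rfl fun i2 _ => ?_
        ring

end Pool.Agent.Helper92.SI
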