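import Pool.Agent.Helper99.SI.StK

set_option autoImplicit false

/-!
# Module K1 of project SI: the trace sum on monomials
-/

namespace Pool.Agent.Helper92.SI

open Pool.Agent.Helper99.SI

/-- The equation `c q = q b` for words `q` of length `m`. -/
lemma cnt1 {n : ℕ} (b : W n) : ∀ (m : ℕ) (c : W n), c ≠ [] →
    (∑ p : Fin m → Fin n, (if c ++ List.ofFn p = List.ofFn p ++ b then (1 : ℂ) else 0)) =
      if c.rotate m = b then 1 else 0
  | 0, c, _ => by
    simp
  | m + 1, [], h => absurd rfl h
  | m + 1, y :: c, _ => by
    have ih := cnt1 b m (c ++ [y]) (by simp)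
    have h1 : (y :: c).rotate (m + 1) = (c ++ [y]).rotate m := by
      rw [List.rotate_cons_succ]
    rw [h1, ← ih]
    rw [← (Fin.consEquiv (fun _ : Fin (m + 1) => Fin n)).sum_comp, Fintype.sum_prod_type]
    rw [Finset.sum_eq_single y]
    · refine Finset.sum_congr rfl fun p _ => ?_
      have h2 : List.ofFn ((Fin.consEquiv (fun _ : Fin (m + 1) => Fin n)) (y, p)) =
          y :: List.ofFn p := by
        simp [Fin.consEquiv]
      rw [h2]
      simp
    · intro x _ hx
      refine Finset.sum_eq_zero fun p _ => ?_
      have h2 : List.ofFn ((Fin.consEquiv (fun _ : Fin (m + 1) => Fin n)) (x, p)) =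
          x :: List.ofFn p := by
        simp [Fin.consEquiv]
      rw [h2, if_neg]
      intro h
      simp only [List.cons_append, List.cons.injEq] at h
      exact hx h.1.symm
    · intro h
      exact absurd (Finset.mem_univ y) h

/-- The same with a common first part `β`. -/
lemma cnt2 {n : ℕ} (b c : W n) (hc : c ≠ []) : ∀ (β : W n) (m m' : ℕ), m' = m + β.length →
    (∑ p : Fin m' → Fin n, (if β = (List.ofFn p).take β.length ∧
      (β ++ c) ++ (List.ofFn p).drop β.length = List.ofFn p ++ b then (1 : ℂ) else 0)) =
      if c.rotate m = b then 1 else 0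
  | [], m, m', h => by
    simp only [List.length_nil, add_zero] at h
    subst h
    rw [← cnt1 b m' c hc]
    refine Finset.sum_congr rfl fun p _ => ?_
    simp
  | x :: β, m, m', h => by
    simp only [List.length_cons] at h
    obtain ⟨m'', rfl⟩ : ∃ m'', m' = m'' + 1 := ⟨m + β.length, by omega⟩
    have ih := cnt2 b c hc β m m'' (by omega)
    rw [← ih]
    rw [← (Fin.consEquiv (fun _ : Fin (m'' + 1) => Fin n)).sum_comp, Fintype.sum_prod_type]
    rw [Finset.sum_eq_single x]
    · refine Finset.sum_congr rfl fun p _ => ?_
      have h2 : List.ofFn ((Fin.consEquiv (fun _ : Fin (m'' + 1) => Fin n)) (x, p)) =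
          x :: List.ofFn p := by
        simp [Fin.consEquiv]
      rw [h2]
      simp
    · intro y _ hy
      refine Finset.sum_eq_zero fun p _ => ?_
      have h2 : List.ofFn ((Fin.consEquiv (fun _ : Fin (m'' + 1) => Fin n)) (y, p)) =
          y :: List.ofFn p := by
        simp [Fin.consEquiv]
      rw [h2, if_neg]
      intro h
      have h3 := h.1
      simp only [List.length_cons, List.take_succ_cons, List.cons.injEq] at h3
      exact hy h3.1.symm
    · intro h
      exact absurd (Finset.mem_univ x) h

/-- Windows of a periodic condition. -/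
lemma cnt3 {n : ℕ} (b c : W n) (h : c.length = b.length) (M : ℕ) :
    (∑ i ∈ Finset.range b.length, (if c.rotate (M + i) = b then (1 : ℂ) else 0)) =
      (rotc c b : ℂ) := by
  have h1 : ∀ i, (c.rotate (i + b.length) = b) = (c.rotate i = b) := by
    intro i
    rw [← h, ← List.rotate_mod c (i + c.length), Nat.add_mod_right, List.rotate_mod]
  have h2 := Nat.filter_Ico_card_eq_of_periodic M b.length (fun i => c.rotate i = b)
    (fun i => h1 i)
  rw [Nat.count_eq_card_filter_range] at h2
  rw [rotc, if_pos h, ← h2, Finset.sum_boole]
  congr 1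
  have h3 : Finset.Ico M (M + b.length) = (Finset.range b.length).map (addLeftEmbedding M) := by
    rw [Finset.range_eq_Ico, Finset.map_add_left_Ico, add_zero]
  rw [h3, Finset.filter_map, Finset.card_map]
  rfl

theorem hK1 (h1 : StA1) (h2 : StA3) : StK1 := by
  intro n L _ _ _ _ _ D b α β N hb hN
  obtain ⟨a1, a2, a3, a4, a5⟩ := h1 n L D
  obtain ⟨c1, c2, c3, c4⟩ := h2 n L D
  have hcf : ∀ μ : W n, D.cf (D.w μ) = Finsupp.single μ 1 := by
    intro μ
    have : D.emb (Finsupp.single μ 1) = D.w μ := by
      simp [Sys.emb]
    rw [← this, c2]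
  -- the value of the coefficient
  have key : ∀ q : W n, β.length ≤ q.length →
      D.cf (D.w α * star (D.w β) * D.w q) (q ++ b) =
        if β = q.take β.length ∧ α ++ q.drop β.length = q ++ b then (1 : ℂ) else 0 := by
    intro q hq
    by_cases hp : β = q.take β.length
    · have hq2 : q = β ++ q.drop β.length := by
        conv_lhs => rw [← List.take_append_drop β.length q]
        rw [← hp]
      have h3 : D.w α * star (D.w β) * D.w q = D.w (α ++ q.drop β.length) := by
        rw [mul_assoc]
        conv_lhs => rw [hq2]
        rw [a2, a1]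
      rw [h3, hcf, Finsupp.single_apply]
      by_cases h4 : α ++ q.drop β.length = q ++ b
      · rw [if_pos h4, if_pos ⟨hp, h4⟩]
      · rw [if_neg h4, if_neg (fun h => h4 h.2)]
    · have h3 : star (D.w β) * D.w q = 0 := by
        apply a4
        · rintro ⟨t, rfl⟩
          apply hp
          rw [List.take_left]
        · intro h
          have h5 : q = β := h.eq_of_length_le hq
          apply hp
          rw [h5]
          simp
      rw [mul_assoc, h3, mul_zero, map_zero, Finsupp.zero_apply, if_neg (fun h => hp h.1)]
  have hsum : D.tauN N b (D.w α * star (D.w β)) =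
      ∑ i ∈ Finset.range b.length, ∑ p : Fin (N + i) → Fin n,
        (if β = (List.ofFn p).take β.length ∧
          α ++ (List.ofFn p).drop β.length = List.ofFn p ++ b then (1 : ℂ) else 0) := by
    rw [Sys.tauN]
    refine Finset.sum_congr rfl fun i _ => Finset.sum_congr rfl fun p _ => ?_
    apply key
    rw [List.length_ofFn]
    omega
  rw [hsum]
  constructor
  · intro hl hp
    obtain ⟨c, hc⟩ : ∃ c, c = α.drop β.length := ⟨_, rfl⟩
    have hα : α = β ++ c := by
      conv_lhs => rw [← List.take_append_drop β.length α]
      rw [← hp, hc]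
    have hlc : c.length = b.length := by
      rw [hc, List.length_drop]
      omega
    have hc0 : c ≠ [] := by
      intro h
      rw [h] at hlc
      exact hb (List.length_eq_zero_iff.1 hlc.symm)
    rw [← hc, ← cnt3 b c hlc (N - β.length)]
    refine Finset.sum_congr rfl fun i _ => ?_
    rw [← cnt2 b c hc0 β (N - β.length + i) (N + i) (by omega)]
    rw [hα]
  · intro hn
    refine Finset.sum_eq_zero fun i _ => Finset.sum_eq_zero fun p _ => ?_
    rw [if_neg]
    rintro ⟨h3, h4⟩
    apply hn
    have hlen : (List.ofFn p).length = N + i := List.length_ofFn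
    have h5 := congrArg List.length h4
    rw [List.length_append, List.length_append, List.length_drop, hlen] at h5
    have h6 : α.length = β.length + b.length := by omega
    refine ⟨h6, ?_⟩
    have h7 := congrArg (List.take β.length) h4
    rw [List.take_append_of_le_length (by omega), List.take_append_of_le_length (by omega),
      ← h3] at h7
    exact h7.symm

end Pool.Agent.Helper92.SI
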