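import Pool.Agent.Helper99.SI.StM

set_option autoImplicit false

/-!
# Module M8 of project SI: powers of PhiL map everything to Y
-/

namespace Pool.Agent.Helper92.SI

open Pool.Agent.Helper99.SI
open LaurentPolynomial

section

variable {n : ℕ} {L : Type} [Ring L] [Algebra ℂ L] [StarRing L] (D : Sys n L)

lemma phiL_apply (y : LL L) :
    D.PhiL y = ∑ i, C (star (D.x i)) * y * D.b.bt (D.x i) := by
  simp only [Sys.PhiL, LinearMap.sum_apply, LinearMap.comp_apply, LinearMap.mulLeft_apply,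
    LinearMap.mulRight_apply, mul_assoc]

lemma w_cons (i : Fin n) (κ : W n) : D.w (i :: κ) = D.x i * D.w κ := by
  simp [Sys.w, wd]

lemma w_nil : D.w [] = 1 := by
  simp [Sys.w, wd]

/-- Powers of PhiL. -/
lemma phiL_pow (hmul : ∀ y z : L, D.b.bt (y * z) = D.b.bt y * D.b.bt z)
    (hone : D.b.bt 1 = 1) : ∀ (k : ℕ) (y : LL L),
    (D.PhiL ^ k) y = ∑ κ : Fin k → Fin n,
      C (star (D.w (List.ofFn κ))) * y * D.b.bt (D.w (List.ofFn κ))
  | 0, y => by
    simp [w_nil, hone]
  | k + 1, y => by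
    rw [pow_succ, Module.End.mul_apply, phiL_pow hmul hone k, phiL_apply]
    rw [← (Fin.consEquiv (fun _ : Fin (k + 1) => Fin n)).sum_comp, Fintype.sum_prod_type]
    rw [Finset.sum_comm]
    refine Finset.sum_congr rfl fun κ _ => ?_
    rw [Finset.mul_sum, Finset.sum_mul]
    refine Finset.sum_congr rfl fun i _ => ?_
    have h2 : List.ofFn ((Fin.consEquiv (fun _ : Fin (k + 1) => Fin n)) (i, κ)) =
        i :: List.ofFn κ := by
      simp [Fin.consEquiv]
    rw [h2, w_cons, star_mul, hmul, map_mul]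
    simp only [mul_assoc]

omit [StarRing L] in
lemma T_smul_C (j : ℤ) (c : L) : (T j : AA) • (C c : LL L) = C c * T j := by
  rw [smul_def']
  have h1 : (T j : AA) = C 1 * T j := by simp
  rw [h1, cen_CT, map_one, map_one, one_mul]
  exact (LaurentPolynomial.commute_T j (C c)).eq

end

theorem hM8 (h1 : StA0) (h2 : StA1) (h3 : StA3) (h4 : StA4) (h5 : StM0) (h6 : StM1)
    (h7 : StM7) : StM8 := by
  intro n L _ _ _ _ _ D X0 hX0 hX1 y
  obtain ⟨b1, b2, b3, b4, b5, -⟩ := h5 L D.b
  have hbt0 : D.b.bt 0 = 0 := by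
    have := b3 0 0
    rw [add_zero] at this
    simpa using this
  have hS : ∀ (γ : W n), ∀ s ∈ D.S, C (star (D.w γ)) * D.b.bt s ∈ D.YY X0 := by
    intro γ s hs
    refine Submodule.span_induction (p := fun s _ => C (star (D.w γ)) * D.b.bt s ∈ D.YY X0)
      ?_ ?_ ?_ ?_ hs
    · rintro _ ⟨q, rfl⟩
      refine Submodule.subset_span ⟨1, hX1, γ, q, ?_⟩
      rw [map_one, mul_one]
    · rw [hbt0, mul_zero]
      exact Submodule.zero_mem _
    · intro a b _ _ ha hb
      rw [b3, mul_add]
      exact Submodule.add_mem _ ha hb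
    · intro c a _ ha
      rw [b4, mul_smul_comm]
      exact Submodule.smul_mem _ _ ha
  induction y using LaurentPolynomial.induction_on' with
  | add p q hp hq =>
    obtain ⟨k, hk⟩ := hp
    obtain ⟨l, hl⟩ := hq
    refine ⟨max k l, fun k' hk' => ?_⟩
    rw [map_add]
    exact Submodule.add_mem _ (hk k' (le_trans (le_max_left _ _) hk'))
      (hl k' (le_trans (le_max_right _ _) hk'))
  | C_mul_T j c =>
    choose lev cc hlev using fun i : ℤ => h4 n L D (D.b.p i c)
    obtain ⟨k, hk⟩ : ∃ k, ∀ i ∈ (D.b.fin c).toFinset, lev i ≤ k :=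
      ⟨(D.b.fin c).toFinset.sup lev, fun i hi => Finset.le_sup hi⟩
    refine ⟨k, fun k' hk' => ?_⟩
    rw [← T_smul_C, map_smul]
    refine Submodule.smul_mem _ _ ?_
    rw [phiL_pow D b1 b2]
    refine Submodule.sum_mem _ fun κ _ => ?_
    have h8 : (C c : LL L) = ∑ i ∈ (D.b.fin c).toFinset, (T (-i) : AA) • D.b.bt (D.b.p i c) := by
      rw [b5 c]
      refine finsum_eq_sum_of_support_subset _ ?_
      intro i hi
      simp only [Set.Finite.coe_toFinset, Set.mem_ofPred_eq]
      intro h0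
      apply hi
      change (T (-i) : AA) • D.b.bt (D.b.p i c) = 0
      rw [h0, hbt0, smul_zero]
    rw [h8, Finset.mul_sum, Finset.sum_mul]
    refine Submodule.sum_mem _ fun i hi => ?_
    rw [mul_smul_comm, smul_mul_assoc]
    refine Submodule.smul_mem _ _ ?_
    rw [mul_assoc, ← b1]
    refine hS _ _ ?_
    refine (hlev i _ ?_).1
    rw [List.length_ofFn]
    exact (hk i hi).trans hk'

end Pool.Agent.Helper92.SI
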